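import Pool.Agent.Helper311.Pic.Main

open Metric Set

namespace Pool.Agent.Results.MP_a36f15_an.DiscretePicard

open Pool.Agent.Helper311.Pic

/-- The discrete Picard theorem for bounded-degree parabolic complexes, branching permitted.
Let `K` be a parabolic combinatorial open disc of bounded degree and let `(z, r)` be any circle
packing for `K` in the plane. Then at most one point of the plane is outside the carrier of
`(z, r)`; in other words the discrete entire function `f` from the maximal packing (centres `Z`)
to `(z, r)` omits at most one point. -/
theorem result {V : Type*} (K : CombDisc V) (hpar : K.Parabolic) (hdeg : K.BoundedDegree)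
    (z : V → ℂ) (r : V → ℝ) (hP : IsPacking K z r) :
    (carrier K z)ᶜ.Subsingleton ∧
      ∀ (Z : V → ℂ) (R : V → ℝ), IsPacking K Z R → Univalent Z R → carrier K Z = univ →
        ∀ f : ℂ → ℂ, IsDiscreteMap K Z z f → (range f)ᶜ.Subsingleton :=
  ⟨carrier_compl_subsingleton K hpar hdeg z r hP, fun Z _ _ _ _ f hf =>
    (carrier_compl_subsingleton K hpar hdeg z r hP).anti
      (compl_subset_compl.2 (carrier_subset_range K Z z f hf))⟩

end Pool.Agent.Results.MP_a36f15_an.DiscretePicard
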